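import Mathlib

/-!
Project GY, part 2: a locally compact Hausdorff group without small subgroups has a Gleason norm.
Definitions and statements of the parts.
-/

namespace Pool.Agent.W922.GY2

open Filter Topology MeasureTheory Set
open scoped Pointwise

/-- compact symmetric neighbourhood of `1` in which no nontrivial element has all its powers -/
structure Good {G : Type} [Group G] [TopologicalSpace G] (U : Set G) : Prop where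
  cpt : IsCompact U
  nhd : U ∈ 𝓝 (1 : G)
  inv : ∀ g ∈ U, g⁻¹ ∈ U
  nss : ∀ g : G, (∀ n : ℕ, g ^ n ∈ U) → g = 1

/-- escape norm -/
noncomputable def esc {G : Type} [Group G] (U : Set G) (g : G) : ℝ :=
  sInf {r : ℝ | ∃ n : ℕ, (∀ i ≤ n, g ^ i ∈ U) ∧ r = 1 / ((n : ℝ) + 1)}

/-- cost of a word -/
def cost {G : Type} (ℓ : G → ℝ) (L : List G) : ℝ := (L.map ℓ).sum

/-- words of cost `< 1 / M` have their product in `X` -/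
def PP {G : Type} [Group G] (ℓ : G → ℝ) (M : ℝ) (X : Set G) : Prop :=
  ∀ L : List G, M * cost ℓ L < 1 → L.prod ∈ X

/-- regularised escape norms -/
structure Adm {G : Type} [Group G] (U : Set G) (ε : ℝ) (ℓ : G → ℝ) : Prop where
  pos : 0 < ε
  le : ∀ g, ε ≤ ℓ g
  inv : ∀ g, ℓ g⁻¹ = ℓ g
  esc : ∀ (g : G) (n : ℕ), n * ℓ g < 1 → g ^ n ∈ U

/-- the norm -/
noncomputable def nu {G : Type} [Group G] (U : Set G) (g : G) : ℝ :=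
  sInf {r : ℝ | ∃ L : List G, L.prod = g ∧ r = cost (esc U) L}

/-- norms comparable with the escape norm -/
structure Nrm {G : Type} [Group G] (U : Set G) (M : ℝ) (ν : G → ℝ) : Prop where
  one : ν 1 = 0
  nonneg : ∀ g, 0 ≤ ν g
  inv : ∀ g, ν g⁻¹ = ν g
  mul : ∀ g h, ν (g * h) ≤ ν g + ν h
  le : ∀ g, ν g ≤ esc U g
  ge : ∀ g, esc U g ≤ M * ν g

/-- convolution -/
noncomputable def cv {G : Type} [Group G] [MeasurableSpace G] (μ : Measure G) (ψ η : G → ℝ)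
    (x : G) : ℝ := ∫ y, ψ y * η (y⁻¹ * x) ∂μ

/-! ### Parts -/

def S_SETUP : Prop := ∀ (G : Type) [Group G] [TopologicalSpace G] [IsTopologicalGroup G]
  [T2Space G] [LocallyCompactSpace G],
  (∃ V ∈ 𝓝 (1 : G), ∀ S : Subgroup G, (S : Set G) ⊆ V → S = ⊥) → ∃ U : Set G, Good U

def S_CPT : Prop := ∀ (G : Type) [Group G] [TopologicalSpace G] [IsTopologicalGroup G]
  [T2Space G] (U : Set G), Good U → ∀ V ∈ 𝓝 (1 : G),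
  ∃ N : ℕ, 0 < N ∧ ∀ g : G, (∀ n ≤ N, g ^ n ∈ U) → g ∈ V

def S_ESC : Prop := ∀ (G : Type) [Group G] [TopologicalSpace G] [IsTopologicalGroup G]
  [T2Space G] (U : Set G), Good U →
  (∀ g, 0 ≤ esc U g ∧ esc U g ≤ 1) ∧
  (∀ (g : G) (n : ℕ), (∀ i ≤ n, g ^ i ∈ U) → esc U g ≤ 1 / ((n : ℝ) + 1)) ∧
  (∀ (g : G) (n : ℕ), n * esc U g < 1 → ∀ i ≤ n, g ^ i ∈ U) ∧
  (∀ g, esc U g⁻¹ = esc U g) ∧ (∀ g, esc U g = 0 ↔ g = 1) ∧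
  (∀ ε > 0, ∀ᶠ g in 𝓝 (1 : G), esc U g < ε)

def S_SCALE : Prop := ∀ (G : Type) [Group G] (U W : Set G) (N : ℕ) (ℓ : G → ℝ) (M : ℝ), 0 ≤ M →
  (∀ g, 0 ≤ ℓ g) → (∀ g : G, (∀ n ≤ N, g ^ n ∈ U) → g ∈ W) → PP ℓ M U → PP ℓ (N * M) W

def S_ITER : Prop := ∀ (G : Type) [Group G] (U : Set G) (ε : ℝ) (ℓ : G → ℝ) (A : ℝ),
  Adm U ε ℓ → 0 ≤ A → (∀ M, 0 ≤ M → PP ℓ M U → PP ℓ (A + M / 2) U) → PP ℓ (2 * A + 1) U

def S_UC : Prop := ∀ (G : Type) [Group G] [TopologicalSpace G] [IsTopologicalGroup G]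
  [T2Space G] (η : G → ℝ) (K : Set G) (c : ℝ), Continuous η → HasCompactSupport η →
  IsCompact K → 0 < c → ∃ V ∈ 𝓝 (1 : G), ∀ h ∈ V, ∀ y ∈ K, ∀ x : G,
    |η (y⁻¹ * x) - η (y⁻¹ * (h⁻¹ * x))| ≤ c

def S_ETA : Prop := ∀ (G : Type) [Group G] [TopologicalSpace G] [IsTopologicalGroup G]
  [T2Space G] [LocallyCompactSpace G] [MeasurableSpace G] [BorelSpace G] (μ : Measure G)
  [μ.IsHaarMeasure] (W : Set G), IsOpen W → (1 : G) ∈ W →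
  ∃ η : G → ℝ, Continuous η ∧ HasCompactSupport η ∧ (∀ x, 0 ≤ η x ∧ η x ≤ 1) ∧
    (∀ x, η x ≠ 0 → x ∈ W) ∧ 0 < ∫ y in W, η y⁻¹ ∂μ

def S_PSI : Prop := ∀ (G : Type) [Group G] [TopologicalSpace G] [IsTopologicalGroup G]
  (W : Set G) (ℓ : G → ℝ) (M : ℝ), IsOpen W → (1 : G) ∈ W → 0 ≤ M → (∀ g, 0 ≤ ℓ g) →
  (∀ g, ℓ g⁻¹ = ℓ g) → PP ℓ M W →
  ∃ ψ : G → ℝ, LowerSemicontinuous ψ ∧ (∀ x, 0 ≤ ψ x ∧ ψ x ≤ 1) ∧ (∀ x ∈ W, ψ x = 1) ∧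
    (∀ x, ψ x ≠ 0 → x ∈ W * W) ∧ ∀ g x, |ψ x - ψ (g⁻¹ * x)| ≤ M * ℓ g

def S_CVB : Prop := ∀ (G : Type) [Group G] [TopologicalSpace G] [IsTopologicalGroup G]
  [T2Space G] [MeasurableSpace G] [BorelSpace G] (μ : Measure G)
  [μ.IsHaarMeasure] (ψ η : G → ℝ) (K W : Set G), Measurable ψ → (∀ x, 0 ≤ ψ x ∧ ψ x ≤ 1) →
  Continuous η → (∀ x, 0 ≤ η x ∧ η x ≤ 1) → IsCompact K → (∀ x, ψ x ≠ 0 → x ∈ K) →
  IsOpen W → (∀ x ∈ W, ψ x = 1) →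
  (∀ x, 0 ≤ cv μ ψ η x ∧ cv μ ψ η x ≤ (μ K).toReal) ∧
  (∀ x, cv μ ψ η x ≠ 0 → ∃ y, ψ y ≠ 0 ∧ η (y⁻¹ * x) ≠ 0) ∧
  ∫ y in W, η y⁻¹ ∂μ ≤ cv μ ψ η 1

def S_CVD : Prop := ∀ (G : Type) [Group G] [TopologicalSpace G] [IsTopologicalGroup G]
  [T2Space G] [MeasurableSpace G] [BorelSpace G] (μ : Measure G)
  [μ.IsHaarMeasure] (ψ η : G → ℝ) (K : Set G) (g h : G) (B c : ℝ), Measurable ψ →
  (∀ x, 0 ≤ ψ x ∧ ψ x ≤ 1) → Continuous η → (∀ x, 0 ≤ η x ∧ η x ≤ 1) → IsCompact K →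
  (∀ x, ψ x ≠ 0 → x ∈ K) → (∀ x, ψ (g⁻¹ * x) ≠ 0 → x ∈ K) →
  (∀ y, |ψ y - ψ (g⁻¹ * y)| ≤ B) →
  (∀ y ∈ K, ∀ x, |η (y⁻¹ * x) - η (y⁻¹ * (h⁻¹ * x))| ≤ c) →
  ∀ x, |(cv μ ψ η x - cv μ ψ η (g⁻¹ * x)) -
    (cv μ ψ η (h⁻¹ * x) - cv μ ψ η (g⁻¹ * (h⁻¹ * x)))| ≤ B * c * (μ K).toReal

def S_TAY : Prop := ∀ (G : Type) [Group G] (φ : G → ℝ) (g : G) (n : ℕ) (m D : ℝ), 0 < n →
  (∀ x, 0 ≤ φ x ∧ φ x ≤ m) →
  (∀ i < n, ∀ x, |(φ x - φ (g⁻¹ * x)) -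
    (φ ((g ^ i)⁻¹ * x) - φ (g⁻¹ * ((g ^ i)⁻¹ * x)))| ≤ D) →
  ∀ x, |φ x - φ (g⁻¹ * x)| ≤ m / n + D

def S_LEMB : Prop := ∀ (G : Type) [Group G] [TopologicalSpace G] [IsTopologicalGroup G]
  [T2Space G] [LocallyCompactSpace G] (U W : Set G), Good U → IsOpen W → (1 : G) ∈ W →
  W * W * W ⊆ U → ∀ c > 0, ∃ A ≥ 0, ∀ (ε : ℝ) (ℓ : G → ℝ) (M : ℝ), 0 ≤ M → Adm U ε ℓ →
  PP ℓ M W → PP ℓ (A + c * M) U

def S_KEY : Prop := ∀ (G : Type) [Group G] [TopologicalSpace G] [IsTopologicalGroup G]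
  [T2Space G] [LocallyCompactSpace G] (U : Set G), Good U → ∃ M > 0, PP (esc U) M U

def S_NU : Prop := ∀ (G : Type) [Group G] [TopologicalSpace G] [IsTopologicalGroup G]
  [T2Space G] (U : Set G) (M : ℝ), Good U → 0 < M → PP (esc U) M U → Nrm U M (nu U)

def S_BASIS : Prop := ∀ (G : Type) [Group G] [TopologicalSpace G] [IsTopologicalGroup G]
  [T2Space G] (U : Set G) (M : ℝ) (ν : G → ℝ), Good U → 0 < M → Nrm U M ν →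
  (𝓝 (1 : G)).HasBasis (fun ε : ℝ => 0 < ε) (fun ε => {g | ν g < ε}) ∧
  (∀ g, g ≠ 1 → 0 < ν g) ∧ Continuous ν

def S_ESCAPE : Prop := ∀ (G : Type) [Group G] [TopologicalSpace G] [IsTopologicalGroup G]
  [T2Space G] (U : Set G) (M : ℝ) (ν : G → ℝ), Good U → 0 < M → Nrm U M ν →
  ∃ C > 0, ∀ (g : G) (n : ℕ), n * ν g ≤ 1 / C → n * ν g ≤ C * ν (g ^ n)

def S_CONJ : Prop := ∀ (G : Type) [Group G] [TopologicalSpace G] [IsTopologicalGroup G]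
  [T2Space G] (U K : Set G), Good U → IsCompact K →
  ∃ C > 0, ∀ g : G, ∀ k ∈ K, esc U (k⁻¹ * g * k) ≤ C * esc U g

def S_BUMP : Prop := ∀ (G : Type) [Group G] [TopologicalSpace G] [IsTopologicalGroup G]
  [T2Space G] (U W : Set G) (M : ℝ) (ν : G → ℝ), Good U → 0 < M → Nrm U M ν → W ∈ 𝓝 (1 : G) →
  ∃ (ψ : G → ℝ) (R : ℝ), 0 < R ∧ Continuous ψ ∧ (∀ x, 0 ≤ ψ x ∧ ψ x ≤ 1) ∧ ψ 1 = 1 ∧
    (∀ x, ψ x ≠ 0 → x ∈ W) ∧ ∀ g x, |ψ x - ψ (g⁻¹ * x)| ≤ R * ν g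

def S_POS : Prop := ∀ (G : Type) [Group G] [TopologicalSpace G] [IsTopologicalGroup G]
  [T2Space G] [MeasurableSpace G] [BorelSpace G] (μ : Measure G) [μ.IsHaarMeasure]
  (ψ : G → ℝ) (K : Set G), Continuous ψ → (∀ x, 0 ≤ ψ x ∧ ψ x ≤ 1) → ψ 1 = 1 →
  IsCompact K → (∀ x, ψ x ≠ 0 → x ∈ K) → 0 < cv μ ψ ψ 1

def S_COMM : Prop := ∀ (G : Type) [Group G] [TopologicalSpace G] [IsTopologicalGroup G]
  [T2Space G] [LocallyCompactSpace G] (U : Set G) (M : ℝ) (ν : G → ℝ), Good U → 0 < M →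
  Nrm U M ν →
  ∃ C > 0, ∀ g h, ν g ≤ 1 / C → ν h ≤ 1 / C → ν (g * h * g⁻¹ * h⁻¹) ≤ C * ν g * ν h

end Pool.Agent.W922.GY2
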