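import Pool.Agent.W922.GY2.Stm

/-! The commutator estimate. -/

namespace Pool.Agent.W922.GY2.Comm

open Filter Topology MeasureTheory Set
open scoped Pointwise
open Pool.Agent.W922.GY2

lemma tel {G : Type} [Group G] (φ : G → ℝ) (k : G) (D : ℝ) (h : ∀ v, |φ (k * v) - φ v| ≤ D)
    (n : ℕ) : |φ (k ^ n) - φ 1| ≤ n * D := by
  induction n with
  | zero => simp
  | succ n ih =>
    have h1 := h (k ^ n)
    rw [← pow_succ'] at h1
    have h2 : φ (k ^ (n + 1)) - φ 1 = (φ (k ^ (n + 1)) - φ (k ^ n)) + (φ (k ^ n) - φ 1) := by ring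
    rw [h2]
    refine (abs_add_le _ _).trans ?_
    push_cast
    linarith

theorem comm (h1 : S_CPT) (h2 : S_ESC) (h3 : S_BASIS) (h4 : S_CONJ) (h5 : S_BUMP) (h6 : S_POS)
    (h7 : S_CVB) (h8 : S_CVD) : S_COMM := by
  intro G _ _ _ _ _ U M ν hU hM hν
  letI : MeasurableSpace G := borel G
  haveI : BorelSpace G := ⟨rfl⟩
  obtain ⟨e0, e1, e2, e3, e4, e5⟩ := h2 G U hU
  -- W
  obtain ⟨W, hWo, hW1, hWW⟩ : ∃ W : Set G, IsOpen W ∧ (1 : G) ∈ W ∧ W * W ⊆ U := by
    obtain ⟨V, hV, hVU⟩ := exists_open_nhds_one_mul_subset hU.nhd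
    exact ⟨V, hV, hVU.1, hVU.2⟩
  obtain ⟨ψ, R, hR, hψc, hψ01, hψ1, hψW, hψL⟩ := h5 G U W M ν hU hM hν (hWo.mem_nhds hW1)
  have h1U : (1 : G) ∈ U := mem_of_mem_nhds hU.nhd
  have hWU : W ⊆ U := fun x hx => hWW (by
    have := Set.mul_mem_mul hx hW1
    rwa [mul_one] at this)
  set K : Set G := U * U with hK
  have hKc : IsCompact K := hU.cpt.mul hU.cpt
  have hUK : U ⊆ K := fun x hx => by
    have := Set.mul_mem_mul hx h1U
    rwa [mul_one] at this
  obtain ⟨C1, hC1, hC1'⟩ := h4 G U K hU hKc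
  let μ : Measure G := Measure.haar
  set φ : G → ℝ := cv μ ψ ψ with hφ
  set m : ℝ := (μ K).toReal with hm
  have hm0 : 0 ≤ m := ENNReal.toReal_nonneg
  -- pos
  have hφ1 : 0 < φ 1 := h6 G μ ψ U hψc hψ01 hψ1 hU.cpt (fun x hx => hWU (hψW x hx))
  -- support
  have hsupp : ∀ x, φ x ≠ 0 → x ∈ U := by
    intro x hx
    obtain ⟨-, hs, -⟩ := h7 G μ ψ ψ K ∅ hψc.measurable hψ01 hψc hψ01 hKc
      (fun x hx => hUK (hWU (hψW x hx))) isOpen_empty (by simp)
    obtain ⟨y, hy1, hy2⟩ := hs x hx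
    have := Set.mul_mem_mul (hψW y hy1) (hψW _ hy2)
    rw [mul_inv_cancel_left] at this
    exact hWW this
  -- the double difference
  set C2 : ℝ := R * (R * C1 * M) * m with hC2
  have hC20 : 0 ≤ C2 := by positivity
  have key : ∀ g ∈ U, ∀ h ∈ U, ∀ x, |(φ x - φ (g⁻¹ * x)) -
      (φ (h⁻¹ * x) - φ (g⁻¹ * (h⁻¹ * x)))| ≤ C2 * ν g * ν h := by
    intro g hg h _ x
    have := h8 G μ ψ ψ K g h (R * ν g) (R * C1 * M * ν h) hψc.measurable hψ01 hψc hψ01 hKc
      (fun x hx => hUK (hWU (hψW x hx)))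
      (fun x hx => by
        have := Set.mul_mem_mul hg (hWU (hψW _ hx))
        rwa [mul_inv_cancel_left] at this)
      (hψL g)
      (fun y hy x => by
        have h9 := hψL (y⁻¹ * h * y) (y⁻¹ * x)
        have h10 : (y⁻¹ * h * y)⁻¹ * (y⁻¹ * x) = y⁻¹ * (h⁻¹ * x) := by group
        rw [h10] at h9
        refine h9.trans ?_
        have h11 := hν.le (y⁻¹ * h * y)
        have h12 := hC1' h y hy
        have h13 := hν.ge h
        calc R * ν (y⁻¹ * h * y) ≤ R * (C1 * (M * ν h)) := by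
              apply mul_le_mul_of_nonneg_left _ hR.le
              exact h11.trans (h12.trans (mul_le_mul_of_nonneg_left h13 hC1.le))
          _ = R * C1 * M * ν h := by ring) x
    refine this.trans (le_of_eq ?_)
    rw [hC2]; ring
  -- commutators
  have com : ∀ g ∈ U, ∀ h ∈ U, ∀ v, |φ (g * h * g⁻¹ * h⁻¹ * v) - φ v| ≤
      2 * C2 * ν g * ν h := by
    intro g hg h hh v
    have a1 := key g⁻¹ (hU.inv g hg) h⁻¹ (hU.inv h hh) ((h * g)⁻¹ * v)
    have a2 := key h⁻¹ (hU.inv h hh) g⁻¹ (hU.inv g hg) ((h * g)⁻¹ * v)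
    rw [hν.inv, hν.inv, inv_inv, inv_inv] at a1 a2
    have b1 : g * (h * ((h * g)⁻¹ * v)) = g * h * g⁻¹ * h⁻¹ * v := by group
    have b2 : h * (g * ((h * g)⁻¹ * v)) = v := by group
    rw [b1] at a1
    rw [b2] at a2
    have b3 : φ (g * h * g⁻¹ * h⁻¹ * v) - φ v =
      ((φ ((h * g)⁻¹ * v) - φ (g * ((h * g)⁻¹ * v))) -
        (φ (h * ((h * g)⁻¹ * v)) - φ (g * h * g⁻¹ * h⁻¹ * v))) -
      ((φ ((h * g)⁻¹ * v) - φ (h * ((h * g)⁻¹ * v))) -
        (φ (g * ((h * g)⁻¹ * v)) - φ v)) := by ring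
    rw [b3]
    refine (abs_sub _ _).trans ?_
    have b4 : C2 * ν h * ν g = C2 * ν g * ν h := by ring
    linarith
  -- the constant
  set C3 : ℝ := 2 * C2 / φ 1 with hC3
  have hC30 : 0 ≤ C3 := by positivity
  refine ⟨C3 + 2 * M + 1, by positivity, ?_⟩
  have small : ∀ g, ν g ≤ 1 / (C3 + 2 * M + 1) → g ∈ U := by
    intro g hg
    have h9 := hν.ge g
    have h10 : M * ν g < 1 := by
      have : M * ν g ≤ M * (1 / (C3 + 2 * M + 1)) := mul_le_mul_of_nonneg_left hg hM.le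
      refine this.trans_lt ?_
      rw [mul_one_div, div_lt_one (by positivity)]
      linarith
    have h11 := e2 g 1 (by push_cast; linarith) 1 le_rfl
    rwa [pow_one] at h11
  intro g h hg hh
  have hgU := small g hg
  have hhU := small h hh
  set k := g * h * g⁻¹ * h⁻¹ with hk
  set D : ℝ := 2 * C2 * ν g * ν h with hD
  have hg0 := hν.nonneg g
  have hh0 := hν.nonneg h
  have hD0 : 0 ≤ D := by positivity
  by_cases hk1 : k = 1
  · rw [hk1, hν.one]; positivity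
  have hex : ∃ n : ℕ, k ^ n ∉ U := by
    by_contra hcon
    push Not at hcon
    exact hk1 (hU.nss k hcon)
  classical
  set n := Nat.find hex with hn
  have hn1 : k ^ n ∉ U := Nat.find_spec hex
  have hn2 : ∀ i < n, k ^ i ∈ U := fun i hi => by
    have := Nat.find_min hex hi
    push Not at this
    exact this
  have hn0 : 0 < n := by
    rcases Nat.eq_zero_or_pos n with h0 | h0
    · rw [h0, pow_zero] at hn1; exact absurd h1U hn1
    · exact h0
  have hz : φ (k ^ n) = 0 := by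
    by_contra hcon
    exact hn1 (hsupp _ hcon)
  have ht := tel φ k D (com g hgU h hhU) n
  rw [hz, zero_sub, abs_neg, abs_of_pos hφ1] at ht
  have hn0' : (0 : ℝ) < n := by exact_mod_cast hn0
  have he : esc U k ≤ 1 / (n : ℝ) := by
    have := e1 k (n - 1) (fun i hi => hn2 i (by omega))
    rwa [Nat.cast_sub (by omega), Nat.cast_one, sub_add_cancel] at this
  have hfin : 1 / (n : ℝ) ≤ D / φ 1 := by
    rw [div_le_div_iff₀ hn0' hφ1]
    linarith
  calc ν k ≤ esc U k := hν.le k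
    _ ≤ D / φ 1 := he.trans hfin
    _ = C3 * ν g * ν h := by rw [hD, hC3]; ring
    _ ≤ (C3 + 2 * M + 1) * ν g * ν h := by
        apply mul_le_mul_of_nonneg_right _ hh0
        apply mul_le_mul_of_nonneg_right _ hg0
        linarith

end Pool.Agent.W922.GY2.Comm
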