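import Pool.Agent.W922.GY2.Stm

/-! Convolutions. -/

namespace Pool.Agent.W922.GY2.Conv

open Filter Topology MeasureTheory Set
open scoped Pointwise
open Pool.Agent.W922.GY2

section

variable {G : Type} [Group G] [TopologicalSpace G] [IsTopologicalGroup G]
  [T2Space G] [MeasurableSpace G] [BorelSpace G] (μ : Measure G) [μ.IsHaarMeasure]

lemma integ {f η : G → ℝ} {K : Set G} {B : ℝ} (hf : Measurable f) (hB : ∀ y, |f y| ≤ B)
    (hK : IsCompact K) (hfK : ∀ y, f y ≠ 0 → y ∈ K) (hη : Continuous η)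
    (hη1 : ∀ y, |η y| ≤ 1) (x : G) : Integrable (fun y => f y * η (y⁻¹ * x)) μ := by
  have hm : Measurable (fun y => f y * η (y⁻¹ * x)) :=
    hf.mul ((hη.comp (by fun_prop : Continuous fun y : G => y⁻¹ * x)).measurable)
  have h1 : Integrable (K.indicator fun _ => B) μ :=
    (integrable_indicator_iff hK.measurableSet).2
      (integrableOn_const (hK.measure_lt_top.ne))
  refine h1.mono' hm.aestronglyMeasurable (Eventually.of_forall fun y => ?_)
  by_cases hy : y ∈ K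
  · rw [indicator_of_mem hy, Real.norm_eq_abs, abs_mul]
    calc |f y| * |η (y⁻¹ * x)| ≤ B * 1 :=
          mul_le_mul (hB y) (hη1 _) (abs_nonneg _) ((abs_nonneg _).trans (hB y))
      _ = B := mul_one B
  · rw [indicator_of_notMem hy]
    have : f y = 0 := by
      by_contra h
      exact hy (hfK y h)
    rw [this]; simp

end

theorem cvb : S_CVB := by
  intro G _ _ _ _ _ _ μ _ ψ η K W hψ hψ01 hη hη01 hK hψK hW hψW
  have hI : ∀ x, Integrable (fun y => ψ y * η (y⁻¹ * x)) μ := fun x =>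
    integ μ (B := 1) hψ (fun y => by rw [abs_of_nonneg (hψ01 y).1]; exact (hψ01 y).2) hK hψK hη
      (fun y => by rw [abs_of_nonneg (hη01 y).1]; exact (hη01 y).2) x
  have hnn : ∀ x y, 0 ≤ ψ y * η (y⁻¹ * x) := fun x y => mul_nonneg (hψ01 y).1 (hη01 _).1
  refine ⟨fun x => ⟨integral_nonneg (hnn x), ?_⟩, fun x hx => ?_, ?_⟩
  · have h1 : ∫ y, ψ y * η (y⁻¹ * x) ∂μ ≤ ∫ y, K.indicator (fun _ => (1 : ℝ)) y ∂μ := by
      refine integral_mono (hI x) ((integrable_indicator_iff hK.measurableSet).2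
        (integrableOn_const (hK.measure_lt_top.ne))) fun y => ?_
      by_cases hy : y ∈ K
      · simp only [indicator_of_mem hy]
        exact mul_le_one₀ (hψ01 y).2 (hη01 _).1 (hη01 _).2
      · simp only [indicator_of_notMem hy]
        have : ψ y = 0 := by
          by_contra h
          exact hy (hψK y h)
        rw [this]; simp
    refine h1.trans (le_of_eq ?_)
    rw [integral_indicator hK.measurableSet]
    simp [Measure.real]
  · by_contra hcon
    push Not at hcon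
    apply hx
    unfold cv
    have : (fun y => ψ y * η (y⁻¹ * x)) = fun _ => 0 := by
      funext y
      by_cases h : ψ y = 0
      · rw [h, zero_mul]
      · rw [hcon y h, mul_zero]
    rw [this]; simp
  · unfold cv
    have h1 : ∫ y in W, η y⁻¹ ∂μ = ∫ y in W, ψ y * η (y⁻¹ * 1) ∂μ := by
      refine setIntegral_congr_fun hW.measurableSet fun y hy => ?_
      simp only [hψW y hy, one_mul, mul_one]
    rw [h1]
    exact setIntegral_le_integral (hI 1) (Eventually.of_forall (hnn 1))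

theorem cvd : S_CVD := by
  intro G _ _ _ _ _ _ μ _ ψ η K g h B c hψ hψ01 hη hη01 hK hψK hψK2 hB hc x
  have hψ1 : ∀ y, |ψ y| ≤ 1 := fun y => by rw [abs_of_nonneg (hψ01 y).1]; exact (hψ01 y).2
  have hη1 : ∀ y, |η y| ≤ 1 := fun y => by rw [abs_of_nonneg (hη01 y).1]; exact (hη01 y).2
  have hψg : Measurable fun y => ψ (g⁻¹ * y) := hψ.comp (measurable_const_mul g⁻¹)
  have hI : ∀ x, Integrable (fun y => ψ y * η (y⁻¹ * x)) μ := fun x =>
    integ μ (B := 1) hψ hψ1 hK hψK hη hη1 x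
  have hI2 : ∀ x, Integrable (fun y => ψ (g⁻¹ * y) * η (y⁻¹ * x)) μ := fun x =>
    integ μ (B := 1) hψg (fun y => hψ1 _) hK hψK2 hη hη1 x
  have h1 : ∀ x, cv μ ψ η (g⁻¹ * x) = ∫ y, ψ (g⁻¹ * y) * η (y⁻¹ * x) ∂μ := by
    intro x
    unfold cv
    rw [← integral_mul_left_eq_self (fun y => ψ (g⁻¹ * y) * η (y⁻¹ * x)) g]
    congr 1
    funext y
    rw [inv_mul_cancel_left, mul_inv_rev, mul_assoc]
  have h2 : ∀ x, cv μ ψ η x - cv μ ψ η (g⁻¹ * x) =
      ∫ y, (ψ y - ψ (g⁻¹ * y)) * η (y⁻¹ * x) ∂μ := by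
    intro x
    rw [h1 x]
    unfold cv
    rw [← integral_sub (hI x) (hI2 x)]
    congr 1
    funext y
    ring
  have hI3 : ∀ x, Integrable (fun y => (ψ y - ψ (g⁻¹ * y)) * η (y⁻¹ * x)) μ := fun x => by
    refine ((hI x).sub (hI2 x)).congr (Eventually.of_forall fun y => ?_)
    simp only [Pi.sub_apply]
    ring
  rw [h2 x, h2 (h⁻¹ * x), ← integral_sub (hI3 x) (hI3 (h⁻¹ * x))]
  have h3 : ∀ y, y ∉ K → (ψ y - ψ (g⁻¹ * y)) * η (y⁻¹ * x) -
      (ψ y - ψ (g⁻¹ * y)) * η (y⁻¹ * (h⁻¹ * x)) = 0 := by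
    intro y hy
    have e1 : ψ y = 0 := by
      by_contra h
      exact hy (hψK y h)
    have e2 : ψ (g⁻¹ * y) = 0 := by
      by_contra h
      exact hy (hψK2 y h)
    rw [e1, e2]; ring
  rw [← setIntegral_eq_integral_of_forall_compl_eq_zero h3, ← Real.norm_eq_abs]
  have h4 : ∀ y ∈ K, ‖(ψ y - ψ (g⁻¹ * y)) * η (y⁻¹ * x) -
      (ψ y - ψ (g⁻¹ * y)) * η (y⁻¹ * (h⁻¹ * x))‖ ≤ B * c := by
    intro y hy
    rw [← mul_sub, norm_mul, Real.norm_eq_abs, Real.norm_eq_abs]
    exact mul_le_mul (hB y) (hc y hy x) (abs_nonneg _) ((abs_nonneg _).trans (hB y))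
  exact norm_setIntegral_le_of_norm_le_const hK.measure_lt_top h4

theorem pos : S_POS := by
  intro G _ _ _ _ _ _ μ _ ψ K hψ hψ01 hψ1 hK hψK
  unfold cv
  have hcont : Continuous fun y : G => ψ y * ψ (y⁻¹ * 1) := by fun_prop
  refine hcont.integral_pos_of_hasCompactSupport_nonneg_nonzero ?_ ?_ (x := 1) ?_
  · refine HasCompactSupport.intro hK fun y hy => ?_
    have : ψ y = 0 := by
      by_contra h
      exact hy (hψK y h)
    rw [this, zero_mul]
  · intro y
    exact mul_nonneg (hψ01 y).1 (hψ01 _).1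
  · simp [hψ1]

end Pool.Agent.W922.GY2.Conv
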