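import Pool.Agent.W922.GY2.Stm

/-! Easy parts. -/

namespace Pool.Agent.W922.GY2.Easy

open Filter Topology MeasureTheory Set
open scoped Pointwise
open Pool.Agent.W922.GY2

lemma cost_nonneg {G : Type} {ℓ : G → ℝ} (h : ∀ g, 0 ≤ ℓ g) (L : List G) : 0 ≤ cost ℓ L := by
  unfold cost
  induction L with
  | nil => simp
  | cons a L ih => simp only [List.map_cons, List.sum_cons]; exact add_nonneg (h a) ih

lemma cost_append {G : Type} (ℓ : G → ℝ) (L L' : List G) :
    cost ℓ (L ++ L') = cost ℓ L + cost ℓ L' := by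
  unfold cost
  rw [List.map_append, List.sum_append]

lemma cost_cons {G : Type} (ℓ : G → ℝ) (g : G) (L : List G) :
    cost ℓ (g :: L) = ℓ g + cost ℓ L := by
  simp [cost]

lemma cost_nil {G : Type} (ℓ : G → ℝ) : cost ℓ ([] : List G) = 0 := by simp [cost]

/-- repetition of a word -/
lemma exists_rep {G : Type} [Group G] (ℓ : G → ℝ) (L : List G) (n : ℕ) :
    ∃ L' : List G, L'.prod = L.prod ^ n ∧ cost ℓ L' = n * cost ℓ L := by
  induction n with
  | zero => exact ⟨[], by simp, by simp [cost]⟩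
  | succ n ih =>
    obtain ⟨L', h1, h2⟩ := ih
    refine ⟨L' ++ L, ?_, ?_⟩
    · rw [List.prod_append, h1, pow_succ]
    · rw [cost_append, h2]; push_cast; ring

lemma mono {G : Type} [Group G] {ℓ : G → ℝ} {X : Set G} (h : ∀ g, 0 ≤ ℓ g) {M M' : ℝ}
    (hM : M ≤ M') (hP : PP ℓ M X) : PP ℓ M' X := by
  intro L hL
  refine hP L (lt_of_le_of_lt ?_ hL)
  exact mul_le_mul_of_nonneg_right hM (cost_nonneg h L)

theorem scale : S_SCALE := by
  intro G _ U W N ℓ M hM hℓ hN hP L hL
  refine hN _ fun n hn => ?_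
  obtain ⟨L', h1, h2⟩ := exists_rep ℓ L n
  rw [← h1]
  refine hP L' ?_
  rw [h2]
  have hc := cost_nonneg hℓ L
  have hn' : (n : ℝ) ≤ N := by exact_mod_cast hn
  calc M * (n * cost ℓ L) = n * (M * cost ℓ L) := by ring
    _ ≤ N * (M * cost ℓ L) := mul_le_mul_of_nonneg_right hn' (mul_nonneg hM hc)
    _ = N * M * cost ℓ L := by ring
    _ < 1 := hL

theorem iter : S_ITER := by
  intro G _ U ε ℓ A hA hA0 hstep
  have hε := hA.pos
  have hℓ : ∀ g, 0 ≤ ℓ g := fun g => hε.le.trans (hA.le g)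
  have h0 : PP ℓ (1 / ε) U := by
    intro L hL
    cases L with
    | nil =>
      have := hA.esc (1 : G) 0 (by simp)
      simpa using this
    | cons a L =>
      exfalso
      rw [cost_cons] at hL
      have h1 := hA.le a
      have h2 := cost_nonneg hℓ L
      rw [one_div, inv_mul_lt_iff₀ hε] at hL
      linarith
  have hk : ∀ k : ℕ, PP ℓ (2 * A + (1 / ε) / 2 ^ k) U := by
    intro k
    induction k with
    | zero => exact mono hℓ (by simp; linarith) h0
    | succ k ih =>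
      have := hstep _ (by positivity) ih
      have e : A + (2 * A + 1 / ε / 2 ^ k) / 2 = 2 * A + 1 / ε / 2 ^ (k + 1) := by
        rw [pow_succ]; field_simp; ring
      rwa [e] at this
  obtain ⟨k, hk1⟩ : ∃ k : ℕ, 1 / ε < 2 ^ k := pow_unbounded_of_one_lt _ (by norm_num)
  refine mono hℓ ?_ (hk k)
  have : 1 / ε / 2 ^ k ≤ 1 := by
    rw [div_le_one (by positivity)]; exact hk1.le
  linarith

theorem tay : S_TAY := by
  intro G _ φ g n m D hn hφ hD x
  have tele : ∀ k : ℕ, ∑ i ∈ Finset.range k,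
      (φ ((g ^ i)⁻¹ * x) - φ (g⁻¹ * ((g ^ i)⁻¹ * x))) = φ x - φ ((g ^ k)⁻¹ * x) := by
    intro k
    induction k with
    | zero => simp
    | succ k ih =>
      rw [Finset.sum_range_succ, ih]
      have : g⁻¹ * ((g ^ k)⁻¹ * x) = (g ^ (k + 1))⁻¹ * x := by
        rw [pow_succ, mul_inv_rev, mul_assoc]
      rw [this]; ring
  have h1 : |∑ i ∈ Finset.range n, ((φ x - φ (g⁻¹ * x)) -
      (φ ((g ^ i)⁻¹ * x) - φ (g⁻¹ * ((g ^ i)⁻¹ * x))))| ≤ n * D := by
    refine (Finset.abs_sum_le_sum_abs _ _).trans ?_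
    calc _ ≤ ∑ i ∈ Finset.range n, D := Finset.sum_le_sum fun i hi =>
          hD i (Finset.mem_range.1 hi) x
      _ = n * D := by simp
  rw [Finset.sum_sub_distrib, tele n] at h1
  simp only [Finset.sum_const, Finset.card_range, nsmul_eq_mul] at h1
  have h2 := hφ x
  have h3 := hφ ((g ^ n)⁻¹ * x)
  have hn' : (0 : ℝ) < n := by exact_mod_cast hn
  have h4 : m / n + D = (m + n * D) / n := by field_simp
  rw [h4, le_div_iff₀ hn']
  rw [abs_le] at h1
  have h5 : |φ x - φ (g⁻¹ * x)| * n = |n * (φ x - φ (g⁻¹ * x))| := by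
    rw [abs_mul, abs_of_pos hn']; ring
  rw [h5, abs_le]
  constructor <;> linarith [h1.1, h1.2, h2.1, h2.2, h3.1, h3.2]

end Pool.Agent.W922.GY2.Easy
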