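import Pool.Agent.W922.GY2.Stm

/-! The escape property. -/

namespace Pool.Agent.W922.GY2.Esc2

open Filter Topology MeasureTheory Set
open scoped Pointwise
open Pool.Agent.W922.GY2

lemma exists_largest {t : ℝ} (ht0 : 0 < t) : ∃ n : ℕ, n * t < 1 ∧ 1 ≤ (n + 1 : ℝ) * t := by
  have hex : ∃ n : ℕ, 1 ≤ (n + 1 : ℝ) * t := by
    obtain ⟨n, hn⟩ := exists_nat_gt (1 / t)
    refine ⟨n, ?_⟩
    rw [div_lt_iff₀ ht0] at hn
    nlinarith
  classical
  refine ⟨Nat.find hex, ?_, Nat.find_spec hex⟩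
  rcases Nat.eq_zero_or_pos (Nat.find hex) with h0 | h0
  · rw [h0]; simp
  · have := Nat.find_min hex (Nat.sub_lt h0 one_pos)
    push Not at this
    have e : ((Nat.find hex - 1 : ℕ) : ℝ) + 1 = Nat.find hex := by
      have : Nat.find hex - 1 + 1 = Nat.find hex := by omega
      exact_mod_cast this
    rwa [e] at this

theorem escape (h1 : S_CPT) (h2 : S_ESC) : S_ESCAPE := by
  intro G _ _ _ _ U M ν hU hM hν
  obtain ⟨e0, e1, e2, e3, e4, e5⟩ := h2 G U hU
  obtain ⟨V, hVo, hV1, hVV⟩ : ∃ V : Set G, IsOpen V ∧ (1 : G) ∈ V ∧ V * V ⊆ U := by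
    obtain ⟨V, hV, hVU⟩ := exists_open_nhds_one_mul_subset hU.nhd
    exact ⟨V, hV, hVU.1, hVU.2⟩
  obtain ⟨N, hN, hN2⟩ := h1 G U hU V (hVo.mem_nhds hV1)
  have hN' : (1 : ℝ) ≤ N := by exact_mod_cast hN
  refine ⟨2 * M * N + 1, by positivity, ?_⟩
  intro g n hn
  rcases Nat.eq_zero_or_pos n with h0 | hn0
  · rw [h0]
    have := hν.nonneg (g ^ 0)
    push_cast
    rw [zero_mul]
    positivity
  have hn0' : (1 : ℝ) ≤ n := by exact_mod_cast hn0
  have hg0 := hν.nonneg g
  have hMN : 0 < M * N := by positivity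
  -- small
  have hsm : n * (N * (M * ν g)) < 1 := by
    have a1 : (n * ν g) * (M * N) ≤ 1 / (2 * M * N + 1) * (M * N) :=
      mul_le_mul_of_nonneg_right hn hMN.le
    have a2 : 1 / (2 * M * N + 1) * (M * N) < 1 := by
      rw [one_div, inv_mul_lt_iff₀ (by positivity)]
      nlinarith
    calc n * (N * (M * ν g)) = (n * ν g) * (M * N) := by ring
      _ ≤ _ := a1
      _ < 1 := a2
  have hr : ∀ r ≤ n, g ^ r ∈ V := by
    intro r hr
    refine hN2 _ fun j hj => ?_
    rw [← pow_mul]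
    refine e2 g (n * N) ?_ (r * j) (Nat.mul_le_mul hr hj)
    push_cast
    calc (n : ℝ) * N * esc U g ≤ n * N * (M * ν g) :=
          mul_le_mul_of_nonneg_left (hν.ge g) (by positivity)
      _ = n * (N * (M * ν g)) := by ring
      _ < 1 := hsm
  -- general step
  have step : ∀ m : ℕ, (m : ℝ) * (N * esc U (g ^ n)) < 1 →
      esc U g ≤ 1 / ((n * (m + 1) : ℕ) + 1 : ℝ) := by
    intro m hm
    refine e1 g (n * (m + 1)) fun k hk => ?_
    -- k = n j + r
    obtain ⟨j, r, hj, hr', rfl⟩ : ∃ j r : ℕ, j ≤ m ∧ r ≤ n ∧ k = n * j + r := by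
      rcases Nat.lt_or_ge (k / n) (m + 1) with hlt | hge
      · exact ⟨k / n, k % n, by omega, (Nat.mod_lt _ hn0).le, (Nat.div_add_mod k n).symm⟩
      · refine ⟨m, n, le_rfl, le_rfl, ?_⟩
        have := Nat.mul_le_of_le_div n (m + 1) k hge
        have h3 : n * (m + 1) = n * m + n := by ring
        have h4 : (m + 1) * n = n * m + n := by ring
        omega
    rw [pow_add]
    apply hVV
    refine Set.mul_mem_mul ?_ (hr r hr')
    rw [pow_mul]
    refine hN2 _ fun i hi => ?_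
    rw [← pow_mul]
    refine e2 (g ^ n) (m * N) ?_ (j * i) (Nat.mul_le_mul hj hi)
    push_cast
    calc (m : ℝ) * N * esc U (g ^ n) = m * (N * esc U (g ^ n)) := by ring
      _ < 1 := hm
  by_cases hz : esc U (g ^ n) = 0
  · -- then g = 1
    have hg : esc U g = 0 := by
      refine le_antisymm ?_ (e0 g).1
      refine le_of_forall_pos_le_add fun δ hδ => ?_
      obtain ⟨m, hm⟩ := exists_nat_gt (1 / δ)
      have a1 := step m (by rw [hz]; simp)
      have a2 : 1 / ((n * (m + 1) : ℕ) + 1 : ℝ) ≤ δ := by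
        rw [div_le_iff₀ (by positivity)]
        rw [div_lt_iff₀ hδ] at hm
        push_cast
        have a3 : (m : ℝ) ≤ n * (m + 1) := by
          have : (0 : ℝ) ≤ m := by positivity
          nlinarith
        nlinarith
      linarith
    have := (e4 g).1 hg
    rw [this, one_pow, hν.one]
    simp
  have hpos : 0 < esc U (g ^ n) := lt_of_le_of_ne (e0 _).1 (Ne.symm hz)
  obtain ⟨m, hm1, hm2⟩ := exists_largest (t := N * esc U (g ^ n)) (by positivity)
  have a1 := step m hm1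
  have hm0 : (0 : ℝ) ≤ m := by positivity
  have a2 : n * esc U g ≤ N * esc U (g ^ n) := by
    have a3 : 1 / ((n * (m + 1) : ℕ) + 1 : ℝ) ≤ 1 / (n * (m + 1) : ℝ) := by
      apply one_div_le_one_div_of_le (by positivity)
      push_cast
      linarith
    have a4 : n * esc U g ≤ n * (1 / (n * (m + 1) : ℝ)) :=
      mul_le_mul_of_nonneg_left (a1.trans a3) (by positivity)
    have a5 : n * (1 / (n * (m + 1) : ℝ)) = 1 / (m + 1 : ℝ) := by
      field_simp
    have a6 : 1 / (m + 1 : ℝ) ≤ N * esc U (g ^ n) := by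
      rw [div_le_iff₀ (by positivity)]
      linarith
    linarith
  have a7 := hν.ge (g ^ n)
  have a8 := hν.nonneg (g ^ n)
  calc n * ν g ≤ n * esc U g := mul_le_mul_of_nonneg_left (hν.le g) (by positivity)
    _ ≤ N * esc U (g ^ n) := a2
    _ ≤ N * (M * ν (g ^ n)) := mul_le_mul_of_nonneg_left a7 (by positivity)
    _ ≤ (2 * M * N + 1) * ν (g ^ n) := by nlinarith

end Pool.Agent.W922.GY2.Esc2
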