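import Pool.Agent.W922.GY2.Stm

/-! Gleason's self-improvement. -/

namespace Pool.Agent.W922.GY2.Lemb

open Filter Topology MeasureTheory Set
open scoped Pointwise
open Pool.Agent.W922.GY2

lemma exists_largest {t : ℝ} (ht0 : 0 < t) : ∃ n : ℕ, n * t < 1 ∧ 1 ≤ (n + 1 : ℝ) * t := by
  have hex : ∃ n : ℕ, 1 ≤ (n + 1 : ℝ) * t := by
    obtain ⟨n, hn⟩ := exists_nat_gt (1 / t)
    refine ⟨n, ?_⟩
    rw [div_lt_iff₀ ht0] at hn
    nlinarith
  classical
  refine ⟨Nat.find hex, ?_, Nat.find_spec hex⟩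
  rcases Nat.eq_zero_or_pos (Nat.find hex) with h0 | h0
  · rw [h0]; simp
  · have := Nat.find_min hex (Nat.sub_lt h0 one_pos)
    push Not at this
    have e : ((Nat.find hex - 1 : ℕ) : ℝ) + 1 = Nat.find hex := by
      have : Nat.find hex - 1 + 1 = Nat.find hex := by omega
      exact_mod_cast this
    rwa [e] at this

lemma tele {G : Type} [Group G] (φ ℓ : G → ℝ) (E : ℝ) 
    (h : ∀ g x, |φ x - φ (g⁻¹ * x)| ≤ E * ℓ g) (L : List G) :
    |φ L.prod - φ 1| ≤ E * cost ℓ L := by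
  induction L with
  | nil => simp [cost]
  | cons g L ih =>
    have h1 := h g (g :: L).prod
    rw [List.prod_cons, inv_mul_cancel_left] at h1
    have h2 : cost ℓ (g :: L) = ℓ g + cost ℓ L := by simp [cost]
    rw [h2, List.prod_cons]
    have h3 : φ (g * L.prod) - φ 1 = (φ (g * L.prod) - φ L.prod) + (φ L.prod - φ 1) := by ring
    rw [h3]
    refine (abs_add_le _ _).trans ?_
    linarith

theorem lemb (h1 : S_CPT) (h2 : S_UC) (h3 : S_ETA) (h4 : S_PSI) (h5 : S_CVB) (h6 : S_CVD)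
    (h7 : S_TAY) : S_LEMB := by
  intro G _ _ _ _ _ U W hU hWo hW1 hWU c hc
  letI : MeasurableSpace G := borel G
  haveI : BorelSpace G := ⟨rfl⟩
  let μ : Measure G := Measure.haar
  obtain ⟨η, hηc, hηs, hη01, hηW, hκ⟩ := h3 G μ W hWo hW1
  set κ : ℝ := ∫ y in W, η y⁻¹ ∂μ with hκd
  have h1U : (1 : G) ∈ U := mem_of_mem_nhds hU.nhd
  have hWWU : W * W ⊆ U := fun x hx => hWU (by
    have := Set.mul_mem_mul hx hW1
    rwa [mul_one] at this)
  set K : Set G := U * U with hK
  have hKc : IsCompact K := hU.cpt.mul hU.cpt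
  have hUK : U ⊆ K := fun x hx => by
    have := Set.mul_mem_mul hx h1U
    rwa [mul_one] at this
  set m : ℝ := (μ K).toReal with hm
  have hm0 : 0 ≤ m := ENNReal.toReal_nonneg
  set c' : ℝ := c * κ / (m + 1) with hc'
  have hc'0 : 0 < c' := by positivity
  have hmc' : m * c' ≤ c * κ := by
    rw [hc', mul_div_assoc', div_le_iff₀ (by positivity)]
    have : 0 < c * κ := by positivity
    nlinarith
  obtain ⟨V, hV, hV2⟩ := h2 G η K c' hηc hηs hKc hc'0
  obtain ⟨N, hN, hN2⟩ := h1 G U hU V hV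
  have hN' : (1 : ℝ) ≤ N := by exact_mod_cast hN
  refine ⟨2 * N * m / κ, by positivity, ?_⟩
  intro ε ℓ M hM hA hP
  have hε := hA.pos
  have hℓ : ∀ g, 0 < ℓ g := fun g => hε.trans_le (hA.le g)
  obtain ⟨ψ, hψl, hψ01, hψW, hψWW, hψL⟩ := h4 G W ℓ M hWo hW1 hM (fun g => (hℓ g).le) hA.inv hP
  have hψm : Measurable ψ := hψl.measurable
  have hψK : ∀ x, ψ x ≠ 0 → x ∈ K := fun x hx => hUK (hWWU (hψWW x hx))
  obtain ⟨b1, b2, b3⟩ := h5 G μ ψ η K W hψm hψ01 hηc hη01 hKc hψK hWo hψW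
  set φ : G → ℝ := cv μ ψ η with hφ
  -- main claim
  have claim : ∀ g x, |φ x - φ (g⁻¹ * x)| ≤ (2 * N * m + m * c' * M) * ℓ g := by
    intro g x
    have hg := hℓ g
    by_cases hbig : 1 ≤ 2 * N * ℓ g
    · have e1 : |φ x - φ (g⁻¹ * x)| ≤ m := by
        have := b1 x
        have := b1 (g⁻¹ * x)
        rw [abs_le]; constructor <;> linarith [(b1 x).1, (b1 x).2, (b1 (g⁻¹ * x)).1, (b1 (g⁻¹ * x)).2]
      have e2 : m * 1 ≤ m * (2 * N * ℓ g) := mul_le_mul_of_nonneg_left hbig hm0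
      have e3 : 0 ≤ m * c' * M * ℓ g := by positivity
      nlinarith
    push Not at hbig
    have ht0 : 0 < N * ℓ g := by positivity
    obtain ⟨n, hn1, hn2⟩ := exists_largest ht0
    have hn0 : 0 < n := by
      rcases Nat.eq_zero_or_pos n with h0 | h0
      · rw [h0] at hn2
        push_cast at hn2
        linarith
      · exact h0
    have hn0' : (1 : ℝ) ≤ n := by exact_mod_cast hn0
    have hgU : g ∈ U := by
      have := hA.esc g 1 (by push_cast; nlinarith)
      rwa [pow_one] at this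
    have hcond : ∀ i < n, ∀ x, |(φ x - φ (g⁻¹ * x)) -
        (φ ((g ^ i)⁻¹ * x) - φ (g⁻¹ * ((g ^ i)⁻¹ * x)))| ≤ M * ℓ g * c' * m := by
      intro i hi
      have hgi : g ^ i ∈ V := by
        refine hN2 _ fun j hj => ?_
        rw [← pow_mul]
        refine hA.esc g (i * j) ?_
        push_cast
        have e1 : (i : ℝ) ≤ n := by exact_mod_cast hi.le
        have e2 : (j : ℝ) ≤ N := by exact_mod_cast hj
        calc (i : ℝ) * j * ℓ g ≤ n * N * ℓ g := by
              apply mul_le_mul_of_nonneg_right _ hg.le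
              exact mul_le_mul e1 e2 (by positivity) (by positivity)
          _ = n * (N * ℓ g) := by ring
          _ < 1 := hn1
      exact h6 G μ ψ η K g (g ^ i) (M * ℓ g) c' hψm hψ01 hηc hη01 hKc hψK
        (fun x hx => by
          have := Set.mul_mem_mul hgU (hWWU (hψWW _ hx))
          rwa [mul_inv_cancel_left] at this)
        (hψL g) (fun y hy x => hV2 _ hgi y hy x)
    have e5 := h7 G φ g n m (M * ℓ g * c' * m) hn0 b1 hcond x
    refine e5.trans ?_
    have e6 : m / n ≤ 2 * N * m * ℓ g := by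
      rw [div_le_iff₀ (by positivity)]
      have e7 : 1 ≤ 2 * (n * (N * ℓ g)) := by nlinarith
      calc m = m * 1 := (mul_one m).symm
        _ ≤ m * (2 * (n * (N * ℓ g))) := mul_le_mul_of_nonneg_left e7 hm0
        _ = 2 * N * m * ℓ g * n := by ring
    calc m / n + M * ℓ g * c' * m ≤ 2 * N * m * ℓ g + M * ℓ g * c' * m := by linarith
      _ = (2 * N * m + m * c' * M) * ℓ g := by ring
  intro L hL
  have ht := tele φ ℓ _ claim L
  have hc0 : 0 ≤ cost ℓ L := by
    unfold cost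
    exact List.sum_nonneg (fun x hx => by
      obtain ⟨g, -, rfl⟩ := List.mem_map.1 hx
      exact (hℓ g).le)
  have e8 : (2 * N * m + m * c' * M) * cost ℓ L ≤ κ * ((2 * N * m / κ + c * M) * cost ℓ L) := by
    have e9 : κ * ((2 * N * m / κ + c * M) * cost ℓ L) = (2 * N * m + c * κ * M) * cost ℓ L := by
      field_simp
    rw [e9]
    apply mul_le_mul_of_nonneg_right _ hc0
    have := mul_le_mul_of_nonneg_right hmc' hM
    linarith
  have e10 : κ * ((2 * N * m / κ + c * M) * cost ℓ L) < κ := by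
    have := mul_lt_mul_of_pos_left hL hκ
    rwa [mul_one] at this
  have e11 : |φ L.prod - φ 1| < κ := ht.trans_lt (e8.trans_lt e10)
  have e12 : 0 < φ L.prod := by
    rw [abs_lt] at e11
    linarith [e11.1, b3]
  obtain ⟨y, hy1, hy2⟩ := b2 _ e12.ne'
  have := Set.mul_mem_mul (hψWW y hy1) (hηW _ hy2)
  rw [mul_inv_cancel_left] at this
  exact hWU this

end Pool.Agent.W922.GY2.Lemb
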