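import Pool.Agent.W922.GY2.Easy

/-! The norm; the bump function `η`. -/

namespace Pool.Agent.W922.GY2.Nu

open Filter Topology MeasureTheory Set
open scoped Pointwise
open Pool.Agent.W922.GY2 Pool.Agent.W922.GY2.Easy

lemma exists_largest {t : ℝ} (ht0 : 0 < t) : ∃ n : ℕ, n * t < 1 ∧ 1 ≤ (n + 1 : ℝ) * t := by
  have hex : ∃ n : ℕ, 1 ≤ (n + 1 : ℝ) * t := by
    obtain ⟨n, hn⟩ := exists_nat_gt (1 / t)
    refine ⟨n, ?_⟩
    rw [div_lt_iff₀ ht0] at hn
    nlinarith
  classical
  refine ⟨Nat.find hex, ?_, Nat.find_spec hex⟩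
  rcases Nat.eq_zero_or_pos (Nat.find hex) with h0 | h0
  · rw [h0]; simp
  · have := Nat.find_min hex (Nat.sub_lt h0 one_pos)
    push Not at this
    have e : ((Nat.find hex - 1 : ℕ) : ℝ) + 1 = Nat.find hex := by
      have : Nat.find hex - 1 + 1 = Nat.find hex := by omega
      exact_mod_cast this
    rwa [e] at this

theorem nu' (h2 : S_ESC) : S_NU := by
  intro G _ _ _ _ U M hU hM hP
  obtain ⟨e0, e1, e2, e3, e4, e5⟩ := h2 G U hU
  have c0 : ∀ L : List G, 0 ≤ cost (esc U) L := cost_nonneg fun g => (e0 g).1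
  have hbdd : ∀ g : G, BddBelow {r : ℝ | ∃ L : List G, L.prod = g ∧ r = cost (esc U) L} := by
    intro g
    refine ⟨0, ?_⟩
    rintro r ⟨L, -, rfl⟩
    exact c0 L
  have hne : ∀ g : G, {r : ℝ | ∃ L : List G, L.prod = g ∧ r = cost (esc U) L}.Nonempty :=
    fun g => ⟨_, [g], by simp, rfl⟩
  have hle : ∀ L : List G, nu U L.prod ≤ cost (esc U) L := fun L =>
    csInf_le (hbdd _) ⟨L, rfl, rfl⟩
  have happ : ∀ (g : G) (r : ℝ), nu U g < r → ∃ L : List G, L.prod = g ∧ cost (esc U) L < r := by
    intro g r hr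
    obtain ⟨s, ⟨L, hL, rfl⟩, hs⟩ := exists_lt_of_csInf_lt (hne g) hr
    exact ⟨L, hL, hs⟩
  have hnn : ∀ g, 0 ≤ nu U g := fun g => le_csInf (hne g) (by
    rintro r ⟨L, -, rfl⟩
    exact c0 L)
  have hinvL : ∀ L : List G, cost (esc U) (L.map fun x => x⁻¹).reverse = cost (esc U) L := by
    intro L
    unfold cost
    rw [List.map_reverse, List.sum_reverse, List.map_map]
    congr 1
    apply List.map_congr_left
    intro a _
    exact e3 a
  have hinv1 : ∀ g, nu U g⁻¹ ≤ nu U g := by
    intro g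
    refine le_of_forall_gt fun r hr => ?_
    obtain ⟨L, hL, hs⟩ := happ g r hr
    have h1 : (L.map fun x => x⁻¹).reverse.prod = g⁻¹ := by
      rw [← hL, List.prod_inv_reverse]
    have h3 := hle (L.map fun x => x⁻¹).reverse
    rw [h1, hinvL] at h3
    exact h3.trans_lt hs
  refine ⟨?_, hnn, ?_, ?_, ?_, ?_⟩
  · refine le_antisymm ?_ (hnn 1)
    have := hle ([] : List G)
    simpa [cost] using this
  · intro g
    refine le_antisymm (hinv1 g) ?_
    have := hinv1 g⁻¹
    rwa [inv_inv] at this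
  · intro g h
    refine le_of_forall_pos_le_add fun ε hε => ?_
    obtain ⟨L1, hL1, hs1⟩ := happ g (nu U g + ε / 2) (by linarith)
    obtain ⟨L2, hL2, hs2⟩ := happ h (nu U h + ε / 2) (by linarith)
    have h3 := hle (L1 ++ L2)
    rw [List.prod_append, hL1, hL2, cost_append] at h3
    linarith
  · intro g
    have := hle [g]
    simpa [cost] using this
  · intro g
    -- all powers
    have hpow : ∀ n : ℕ, n * (M * nu U g) < 1 → ∀ i ≤ n, g ^ i ∈ U := by
      intro n hn i hi
      rcases Nat.eq_zero_or_pos n with h0 | h0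
      · obtain rfl : i = 0 := by omega
        simpa using mem_of_mem_nhds hU.nhd
      have hn0 : (0 : ℝ) < n := by exact_mod_cast h0
      obtain ⟨L, hL, hs⟩ := happ g (1 / (n * M)) (by
        rw [lt_div_iff₀ (by positivity)]
        linarith)
      obtain ⟨L', h1, h3⟩ := exists_rep (esc U) L i
      rw [← hL, ← h1]
      refine hP L' ?_
      rw [h3]
      rw [lt_div_iff₀ (by positivity)] at hs
      have hi' : (i : ℝ) ≤ n := by exact_mod_cast hi
      calc M * (i * cost (esc U) L) = i * (M * cost (esc U) L) := by ring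
        _ ≤ n * (M * cost (esc U) L) :=
          mul_le_mul_of_nonneg_right hi' (mul_nonneg hM.le (c0 L))
        _ = cost (esc U) L * (n * M) := by ring
        _ < 1 := hs
    rcases (hnn g).lt_or_eq with h | h
    · obtain ⟨n, hn1, hn2⟩ := exists_largest (t := M * nu U g) (by positivity)
      refine (e1 g n (hpow n hn1)).trans ?_
      rw [div_le_iff₀ (by positivity)]
      linarith
    · have : g = 1 := hU.nss g fun n => hpow n (by rw [← h]; simp) n le_rfl
      rw [(e4 g).2 this]
      have := hnn g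
      positivity

theorem eta : S_ETA := by
  intro G _ _ _ _ _ _ _ μ _ W hW h1
  obtain ⟨η, hη1, hη0, hηs, hη01⟩ := exists_continuous_one_zero_of_isCompact
    (isCompact_singleton (x := (1 : G))) hW.isClosed_compl
    (by simpa [Set.disjoint_singleton_left] using h1)
  have hcont : Continuous fun y : G => η y⁻¹ := η.continuous.comp continuous_inv
  have hsupp : HasCompactSupport fun y : G => η y⁻¹ :=
    hηs.comp_homeomorph (Homeomorph.inv G)
  refine ⟨η, η.continuous, hηs, fun x => ⟨(hη01 x).1, (hη01 x).2⟩, fun x hx => ?_, ?_⟩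
  · by_contra hcon
    exact hx (hη0 hcon)
  · have hI : Integrable (fun y : G => η y⁻¹) μ := hcont.integrable_of_hasCompactSupport hsupp
    rw [setIntegral_pos_iff_support_of_nonneg_ae (Eventually.of_forall fun y => (hη01 _).1)
      hI.integrableOn]
    refine IsOpen.measure_pos μ ((hcont.isOpen_support).inter hW) ⟨1, ?_, h1⟩
    have : η 1 = 1 := hη1 (Set.mem_singleton _)
    simp [this]

end Pool.Agent.W922.GY2.Nu
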