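import Pool.Agent.W922.GY2.Stm

/-! Topological parts. -/

namespace Pool.Agent.W922.GY2.Top

open Filter Topology MeasureTheory Set
open scoped Pointwise
open Pool.Agent.W922.GY2

theorem setup : S_SETUP := by
  intro G _ _ _ _ _ h
  obtain ⟨V, hV, hV2⟩ := h
  obtain ⟨C, hC, hCV, hCc⟩ := local_compact_nhds hV
  refine ⟨C ∩ C⁻¹, ?_, ?_, ?_, ?_⟩
  · exact hCc.inter hCc.inv
  · exact Filter.inter_mem hC (inv_mem_nhds_one G hC)
  · intro g hg
    exact ⟨by simpa using hg.2, by simpa using hg.1⟩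
  · intro g hg
    have h1 : (Subgroup.zpowers g : Set G) ⊆ V := by
      rintro x ⟨n, rfl⟩
      cases n with
      | ofNat n =>
        have := hg n
        simpa using hCV this.1
      | negSucc n =>
        have := hg (n + 1)
        have h2 : (g ^ (n + 1))⁻¹ ∈ C := by simpa using this.2
        simpa [zpow_negSucc] using hCV h2
    have h2 := hV2 _ h1
    exact Subgroup.zpowers_eq_bot.1 h2

theorem cpt : S_CPT := by
  intro G _ _ _ _ U hU V hV
  have hUc : IsClosed U := hU.cpt.isClosed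
  let F : ℕ → Set G := fun N => {g | ∀ n ≤ N + 1, g ^ n ∈ U}
  have hF : ∀ N, IsClosed (F N) := by
    intro N
    have : F N = ⋂ n ∈ Finset.range (N + 2), (fun g : G => g ^ n) ⁻¹' U := by
      ext g
      simp only [F, mem_setOf_eq, mem_iInter, mem_preimage, Finset.mem_range]
      constructor
      · intro h n hn; exact h n (by omega)
      · intro h n hn; exact h n (by omega)
    rw [this]
    exact isClosed_biInter fun n _ => hUc.preimage (continuous_pow n)
  have hmono : ∀ N M, N ≤ M → F M ⊆ F N := fun N M h g hg n hn => hg n (by omega)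
  have hK : IsCompact (U ∩ (interior V)ᶜ) := hU.cpt.inter_right isOpen_interior.isClosed_compl
  have hempty : (U ∩ (interior V)ᶜ) ∩ ⋂ N, F N = ∅ := by
    ext g
    simp only [mem_inter_iff, mem_iInter, mem_compl_iff, mem_empty_iff_false, iff_false, not_and]
    rintro ⟨_, hgV⟩ hg
    have : g = 1 := hU.nss g fun n => hg n n (by omega)
    rw [this] at hgV
    exact hgV (mem_interior_iff_mem_nhds.2 hV)
  obtain ⟨N, hN⟩ := hK.elim_directed_family_closed F hF hempty
    (directed_of_isDirected_le fun N M h => hmono N M h)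
  refine ⟨N + 1, by omega, fun g hg => ?_⟩
  by_contra hcon
  have h1 : g ∈ U := by
    have := hg 1 (by omega)
    rwa [pow_one] at this
  have h2 : g ∈ (U ∩ (interior V)ᶜ) ∩ F N := ⟨⟨h1, fun h => hcon (interior_subset h)⟩, hg⟩
  rw [hN] at h2
  exact h2

theorem escp : S_ESC := by
  intro G _ _ _ _ U hU
  have h1U : (1 : G) ∈ U := mem_of_mem_nhds hU.nhd
  have hbdd : ∀ g : G, BddBelow {r : ℝ | ∃ n : ℕ, (∀ i ≤ n, g ^ i ∈ U) ∧ r = 1 / ((n : ℝ) + 1)} := by
    intro g
    refine ⟨0, ?_⟩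
    rintro r ⟨n, -, rfl⟩
    positivity
  have hone : ∀ g : G, (1 : ℝ) ∈ {r : ℝ | ∃ n : ℕ, (∀ i ≤ n, g ^ i ∈ U) ∧ r = 1 / ((n : ℝ) + 1)} := by
    intro g
    refine ⟨0, fun i hi => ?_, by simp⟩
    obtain rfl : i = 0 := by omega
    simpa using h1U
  have e0 : ∀ g, 0 ≤ esc U g ∧ esc U g ≤ 1 := by
    intro g
    refine ⟨le_csInf ⟨1, hone g⟩ ?_, csInf_le (hbdd g) (hone g)⟩
    rintro r ⟨n, -, rfl⟩
    positivity
  have e1 : ∀ (g : G) (n : ℕ), (∀ i ≤ n, g ^ i ∈ U) → esc U g ≤ 1 / ((n : ℝ) + 1) :=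
    fun g n h => csInf_le (hbdd g) ⟨n, h, rfl⟩
  have e2 : ∀ (g : G) (n : ℕ), n * esc U g < 1 → ∀ i ≤ n, g ^ i ∈ U := by
    intro g n hn i hi
    rcases Nat.eq_zero_or_pos n with h0 | h0
    · obtain rfl : i = 0 := by omega
      simpa using h1U
    have hn0 : (0 : ℝ) < n := by exact_mod_cast h0
    have h2 : esc U g < 1 / n := by
      rw [lt_div_iff₀ hn0]; linarith
    obtain ⟨r, ⟨m, hm, rfl⟩, hr⟩ := exists_lt_of_csInf_lt ⟨1, hone g⟩ h2
    rw [one_div_lt_one_div (by positivity) hn0] at hr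
    have : n < m + 1 := by exact_mod_cast hr
    exact hm i (by omega)
  have e3 : ∀ g, esc U g⁻¹ = esc U g := by
    intro g
    unfold esc
    congr 1
    ext r
    simp only [mem_setOf_eq]
    constructor
    · rintro ⟨n, hn, rfl⟩
      refine ⟨n, fun i hi => ?_, rfl⟩
      have := hU.inv _ (hn i hi)
      simpa using this
    · rintro ⟨n, hn, rfl⟩
      refine ⟨n, fun i hi => ?_, rfl⟩
      have := hU.inv _ (hn i hi)
      simpa using this
  have e4 : ∀ g, esc U g = 0 ↔ g = 1 := by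
    intro g
    constructor
    · intro h
      exact hU.nss g fun n => e2 g n (by rw [h]; simp) n le_rfl
    · rintro rfl
      refine le_antisymm ?_ (e0 _).1
      refine le_of_forall_pos_le_add fun ε hε => ?_
      obtain ⟨n, hn⟩ := exists_nat_one_div_lt hε
      have := e1 1 n (fun i _ => by simpa using h1U)
      linarith
  refine ⟨e0, e1, e2, e3, e4, fun ε hε => ?_⟩
  obtain ⟨n, hn⟩ := exists_nat_one_div_lt hε
  have h5 : ∀ᶠ g in 𝓝 (1 : G), ∀ i ∈ Finset.range (n + 1), g ^ i ∈ U := by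
    rw [Filter.eventually_all_finset]
    intro i _
    have : Tendsto (fun g : G => g ^ i) (𝓝 1) (𝓝 1) := by
      have := (continuous_pow (M := G) i).tendsto 1
      simpa using this
    exact this.eventually hU.nhd
  filter_upwards [h5] with g hg
  exact (e1 g n fun i hi => hg i (Finset.mem_range.2 (by omega))).trans_lt hn

theorem basis (h1 : S_CPT) (h2 : S_ESC) : S_BASIS := by
  intro G _ _ _ _ U M ν hU hM hν
  obtain ⟨e0, e1, e2, e3, e4, e5⟩ := h2 G U hU
  have hnb : ∀ ε > 0, ∀ᶠ g in 𝓝 (1 : G), ν g < ε := fun ε hε =>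
    (e5 ε hε).mono fun g hg => (hν.le g).trans_lt hg
  refine ⟨⟨fun V => ⟨fun hV => ?_, ?_⟩⟩, fun g hg => ?_, ?_⟩
  · obtain ⟨N, hN, hN2⟩ := h1 G U hU V hV
    have hN' : (0 : ℝ) < N := by exact_mod_cast hN
    refine ⟨1 / (M * N), by positivity, fun g hg => hN2 g fun n hn => ?_⟩
    refine e2 g N ?_ n hn
    have h3 : ν g < 1 / (M * N) := hg
    rw [lt_div_iff₀ (by positivity)] at h3
    calc N * esc U g ≤ N * (M * ν g) := mul_le_mul_of_nonneg_left (hν.ge g) hN'.le
      _ = ν g * (M * N) := by ring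
      _ < 1 := h3
  · rintro ⟨ε, hε, hεV⟩
    exact Filter.mem_of_superset (hnb ε hε) hεV
  · rcases (hν.nonneg g).lt_or_eq with h | h
    · exact h
    · exfalso
      apply hg
      rw [← e4 g]
      refine le_antisymm ?_ (e0 g).1
      have := hν.ge g
      rw [← h, mul_zero] at this
      exact this
  · rw [continuous_iff_continuousAt]
    intro x
    rw [ContinuousAt, Metric.tendsto_nhds]
    intro ε hε
    have h3 : Tendsto (fun y : G => x⁻¹ * y) (𝓝 x) (𝓝 1) := by
      have := (continuous_const_mul x⁻¹).tendsto x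
      rwa [inv_mul_cancel] at this
    filter_upwards [h3.eventually (hnb ε hε)] with y hy
    rw [Real.dist_eq]
    refine lt_of_le_of_lt ?_ hy
    rw [abs_le]
    constructor
    · have := hν.mul y (x⁻¹ * y)⁻¹
      rw [hν.inv] at this
      have h4 : y * (x⁻¹ * y)⁻¹ = x := by group
      rw [h4] at this
      linarith
    · have := hν.mul x (x⁻¹ * y)
      rw [mul_inv_cancel_left] at this
      linarith

end Pool.Agent.W922.GY2.Top
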