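import Pool.Agent.W922.GY2.Stm

/-! Uniform continuity, conjugation, bump functions. -/

namespace Pool.Agent.W922.GY2.Uc

open Filter Topology MeasureTheory Set
open scoped Pointwise
open Pool.Agent.W922.GY2

lemma step1 {G : Type} [Group G] [TopologicalSpace G] [IsTopologicalGroup G]
    [T2Space G] {η : G → ℝ} (hη : Continuous η) (hs : HasCompactSupport η) {c : ℝ} (hc : 0 < c) :
    ∀ᶠ v in 𝓝 (1 : G), ∀ z, |η z - η (v * z)| ≤ c := by
  have hK : IsCompact (tsupport η) := hs
  have h1 : ∀ᶠ v in 𝓝 (1 : G), ∀ z ∈ tsupport η, |η z - η (v * z)| ≤ c := by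
    refine hK.eventually_forall_of_forall_eventually fun z _ => ?_
    have hcont : Continuous fun p : G × G => |η p.2 - η (p.1 * p.2)| := by fun_prop
    have h2 : Tendsto (fun p : G × G => |η p.2 - η (p.1 * p.2)|) (𝓝 ((1 : G), z)) (𝓝 0) := by
      have := hcont.tendsto ((1 : G), z)
      simpa using this
    exact (h2.eventually (gt_mem_nhds hc)).mono fun p hp => hp.le
  have h3 : ∀ᶠ v in 𝓝 (1 : G), ∀ z ∈ tsupport η, |η z - η (v⁻¹ * z)| ≤ c := by
    have : Tendsto (fun v : G => v⁻¹) (𝓝 1) (𝓝 1) := by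
      have := (continuous_inv (G := G)).tendsto 1
      simpa using this
    exact this.eventually h1
  filter_upwards [h1, h3] with v hv1 hv2 z
  by_cases hz : z ∈ tsupport η
  · exact hv1 z hz
  by_cases hz2 : v * z ∈ tsupport η
  · have := hv2 (v * z) hz2
    rw [inv_mul_cancel_left, abs_sub_comm] at this
    exact this
  · rw [image_eq_zero_of_notMem_tsupport hz, image_eq_zero_of_notMem_tsupport hz2]
    simpa using hc.le

lemma step2 {G : Type} [Group G] [TopologicalSpace G] [IsTopologicalGroup G]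
    {K : Set G} (hK : IsCompact K) {V : Set G} (hV : V ∈ 𝓝 (1 : G)) :
    ∀ᶠ h in 𝓝 (1 : G), ∀ y ∈ K, y⁻¹ * h * y ∈ V := by
  refine hK.eventually_forall_of_forall_eventually fun y _ => ?_
  have hcont : Continuous fun p : G × G => p.2⁻¹ * p.1 * p.2 := by fun_prop
  have h2 : Tendsto (fun p : G × G => p.2⁻¹ * p.1 * p.2) (𝓝 ((1 : G), y)) (𝓝 1) := by
    have := hcont.tendsto ((1 : G), y)
    simpa using this
  exact h2.eventually hV

theorem uc : S_UC := by
  intro G _ _ _ _ η K c hη hs hK hc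
  have h1 := step1 hη hs hc
  have h2 := step2 hK (V := {v | ∀ z, |η z - η (v * z)| ≤ c}) h1
  have h3 : Tendsto (fun v : G => v⁻¹) (𝓝 1) (𝓝 1) := by
    have := (continuous_inv (G := G)).tendsto 1
    simpa using this
  refine ⟨_, h3.eventually h2, fun h hh y hy x => ?_⟩
  have h4 := hh y hy (y⁻¹ * x)
  have h5 : y⁻¹ * h⁻¹ * y * (y⁻¹ * x) = y⁻¹ * (h⁻¹ * x) := by group
  rwa [h5] at h4

theorem conj (h1 : S_CPT) (h2 : S_ESC) : S_CONJ := by
  intro G _ _ _ _ U K hU hK
  obtain ⟨e0, e1, e2, e3, e4, e5⟩ := h2 G U hU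
  obtain ⟨N, hN, hN2⟩ := h1 G U hU _ (step2 hK hU.nhd)
  refine ⟨N, by exact_mod_cast hN, fun g k hk => ?_⟩
  have hN' : (1 : ℝ) ≤ N := by exact_mod_cast hN
  by_cases hbig : 1 ≤ N * esc U g
  · exact (e0 _).2.trans hbig
  push Not at hbig
  by_cases hz : esc U g = 0
  · have := (e4 g).1 hz
    rw [hz, this]
    have h9 : k⁻¹ * 1 * k = 1 := by group
    rw [h9, (e4 1).2 rfl, mul_zero]
  have hpos : 0 < esc U g := lt_of_le_of_ne (e0 g).1 (Ne.symm hz)
  -- the largest n
  set t : ℝ := N * esc U g with ht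
  have ht0 : 0 < t := by positivity
  obtain ⟨n, hn1, hn2⟩ : ∃ n : ℕ, n * t < 1 ∧ 1 ≤ (n + 1 : ℝ) * t := by
    have hex : ∃ n : ℕ, 1 ≤ (n + 1 : ℝ) * t := by
      obtain ⟨n, hn⟩ := exists_nat_gt (1 / t)
      refine ⟨n, ?_⟩
      rw [div_lt_iff₀ ht0] at hn
      nlinarith
    classical
    refine ⟨Nat.find hex, ?_, Nat.find_spec hex⟩
    rcases Nat.eq_zero_or_pos (Nat.find hex) with h0 | h0
    · rw [h0]; simp
    · have := Nat.find_min hex (Nat.sub_lt h0 one_pos)
      push Not at this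
      have e : ((Nat.find hex - 1 : ℕ) : ℝ) + 1 = Nat.find hex := by
        have : Nat.find hex - 1 + 1 = Nat.find hex := by omega
        exact_mod_cast this
      rwa [e] at this
  have h5 : ∀ i ≤ n, (k⁻¹ * g * k) ^ i ∈ U := by
    intro i hi
    have h6 : (k⁻¹ * g * k) ^ i = k⁻¹ * g ^ i * k := by
      have := conj_pow (i := i) (a := k⁻¹) (b := g)
      rwa [inv_inv] at this
    rw [h6]
    refine hN2 (g ^ i) (fun j hj => ?_) k hk
    rw [← pow_mul]
    refine e2 g (n * N) ?_ (i * j) (Nat.mul_le_mul hi hj)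
    push_cast
    calc (n : ℝ) * N * esc U g = n * t := by rw [ht]; ring
      _ < 1 := hn1
  refine (e1 _ n h5).trans ?_
  rw [div_le_iff₀ (by positivity)]
  linarith [hn2]

theorem bump (h1 : S_BASIS) : S_BUMP := by
  intro G _ _ _ _ U W M ν hU hM hν hW
  obtain ⟨hB, hpos, hcont⟩ := h1 G U M ν hU hM hν
  obtain ⟨r, hr, hrW⟩ := hB.mem_iff.1 hW
  refine ⟨fun x => max 0 (1 - ν x / r), 1 / r, by positivity, by fun_prop, fun x => ⟨le_max_left _ _, ?_⟩,
    ?_, ?_, ?_⟩
  · have := hν.nonneg x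
    refine max_le (by norm_num) ?_
    have : 0 ≤ ν x / r := by positivity
    linarith
  · simp only [hν.one]; simp
  · intro x hx
    apply hrW
    change ν x < r
    by_contra hcon
    push Not at hcon
    apply hx
    have : 1 ≤ ν x / r := by rwa [one_le_div hr]
    exact max_eq_left (by linarith)
  · intro g x
    have h2 : |ν x - ν (g⁻¹ * x)| ≤ ν g := by
      rw [abs_le]
      constructor
      · have := hν.mul g⁻¹ x
        rw [hν.inv] at this
        linarith
      · have := hν.mul g (g⁻¹ * x)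
        rw [mul_inv_cancel_left] at this
        linarith
    have h3 : |max 0 (1 - ν x / r) - max 0 (1 - ν (g⁻¹ * x) / r)| ≤
        |(1 - ν x / r) - (1 - ν (g⁻¹ * x) / r)| := by
      have := abs_max_sub_max_le_abs (1 - ν x / r) (1 - ν (g⁻¹ * x) / r) 0
      rwa [max_comm (1 - ν x / r) 0, max_comm (1 - ν (g⁻¹ * x) / r) 0] at this
    refine h3.trans ?_
    have h4 : (1 - ν x / r) - (1 - ν (g⁻¹ * x) / r) = -(1 / r * (ν x - ν (g⁻¹ * x))) := by ring
    rw [h4, abs_neg, abs_mul, abs_of_pos (by positivity : 0 < 1 / r)]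
    exact mul_le_mul_of_nonneg_left h2 (by positivity)

end Pool.Agent.W922.GY2.Uc
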