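import Pool.Agent.W660.GY.Stm
import Pool.Agent.W922.GY2.Stm

/-! Assembly of the second part of the Gleason-Yamabe theorem. -/

namespace Pool.Agent.W922.GY2

open Filter Topology MeasureTheory Set
open scoped Pointwise
open Pool.Agent.W660.GY

theorem asm (hs : S_SETUP) (hk : S_KEY) (hn : S_NU) (hb : S_BASIS) (he : S_ESCAPE)
    (hc : S_COMM) : GY2 := by
  intro G _ _ _ _ _ hN
  obtain ⟨V, hV, hV2⟩ := hN
  obtain ⟨U, hU⟩ := hs G ⟨V, hV, hV2⟩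
  obtain ⟨M, hM, hP⟩ := hk G U hU
  have hν := hn G U M hU hM hP
  obtain ⟨hB, hpos, -⟩ := hb G U M (nu U) hU hM hν
  obtain ⟨C1, hC1, h1⟩ := he G U M (nu U) hU hM hν
  obtain ⟨C2, hC2, h2⟩ := hc G U M (nu U) hU hM hν
  exact ⟨nu U, hν.one, hpos, hν.inv, hν.mul, hB, ⟨C1, hC1, h1⟩, ⟨C2, hC2, h2⟩⟩

end Pool.Agent.W922.GY2
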