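import Pool.Agent.W922.GY2.Nu
import Pool.Agent.W660.GY.Part3.Stm

/-! Gleason lemma (part 3, GASM). -/

namespace Pool.Agent.W922.GY2.Gasm

open Filter Topology MeasureTheory Set
open scoped Pointwise
open Pool.Agent.W660.GY.P3

lemma steps {G : Type} [Group G] {φ : G → ℝ} {Q : Set G} {e : ℝ}
    (h : ∀ g ∈ Q, ∀ x, |φ x - φ (g⁻¹ * x)| ≤ e) (n : ℕ) :
    ∀ q ∈ Q ^ n, ∀ x, |φ (q * x) - φ x| ≤ n * e := by
  induction n with
  | zero =>
    intro q hq x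
    rw [pow_zero, Set.mem_one] at hq
    rw [hq]; simp
  | succ n ih =>
    intro q hq x
    rw [pow_succ'] at hq
    obtain ⟨g, hg, q', hq', rfl⟩ := Set.mem_mul.1 hq
    have h1 := h g hg (g * q' * x)
    have e1 : g⁻¹ * (g * q' * x) = q' * x := by group
    rw [e1] at h1
    have h2 := ih q' hq' x
    have h3 : φ (g * q' * x) - φ x = (φ (g * q' * x) - φ (q' * x)) + (φ (q' * x) - φ x) := by ring
    rw [h3]
    refine (abs_add_le _ _).trans ?_
    push_cast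
    linarith

theorem gasm : S_GASM := by
  intro hUC hPSI hPHI hTEL G _ _ _ _ _ K U hK hU
  let _ : MeasurableSpace G := borel G
  have : BorelSpace G := ⟨rfl⟩
  let μ : Measure G := Measure.haar
  obtain ⟨O1, hO1o, hO1, hO1U⟩ : ∃ V : Set G, IsOpen V ∧ (1 : G) ∈ V ∧ V * V ⊆ U := by
    obtain ⟨V, hV, hVU⟩ := exists_open_nhds_one_mul_subset hU
    exact ⟨V, hV, hVU.1, hVU.2⟩
  obtain ⟨C, hC, hC1⟩ := exists_compact_mem_nhds (1 : G)
  set U2 : Set G := O1 ∩ interior C with hU2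
  have hU2o : IsOpen U2 := hO1o.inter isOpen_interior
  have hU21 : (1 : G) ∈ U2 := ⟨hO1, mem_interior_iff_mem_nhds.2 hC1⟩
  have hU2C : U2 ⊆ C := fun x hx => interior_subset hx.2
  obtain ⟨η, hηc, hηs, hη01, hηW, hκ⟩ := Pool.Agent.W922.GY2.Nu.eta G μ U2 hU2o hU21
  set c0 : ℝ := ∫ y in U2, η y⁻¹ ∂μ with hc0
  set K1 : Set G := K * C with hK1
  have hK1c : IsCompact K1 := hK.mul hC
  set m : ℝ := μ.real K1 with hm
  have hm0 : 0 ≤ m := measureReal_nonneg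
  set eps : ℝ := c0 / (4 * (m + 1)) with heps
  have heps0 : 0 < eps := by positivity
  obtain ⟨V, hV, hV2⟩ := hUC G η K1 eps hηc hηs hK1c heps0
  refine ⟨V, hV, fun Q hQ hQV s hs hQs => ?_⟩
  obtain ⟨ψ, hψm, hψ0, hψ1, hψU, hψs, hψg⟩ := hPSI G Q U2 s hQ hU2o hs
  have hsub : Q ^ s * U2 ⊆ K1 := Set.mul_subset_mul hQs hU2C
  have h1Q : (1 : G) ∈ Q ^ s := Set.one_mem_pow hQ.1
  have hU2K1 : U2 ⊆ K1 := fun x hx => by
    have := Set.mul_mem_mul (hQs h1Q) (hU2C hx)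
    rwa [one_mul] at this
  obtain ⟨φ, p1, p2, p3, p4⟩ := hPHI G μ η ψ K1 U2 Q V eps s hηc hηs (fun x => (hη01 x).1)
    (fun x => (hη01 x).2) hK1c hU2o hU2K1 heps0 hs hψm hψ0 hψ1 hψU
    (fun x hx => hsub (hψs x hx))
    (fun g hg => ⟨(hψg g hg).1, fun x hx => hsub ((hψg g hg).2 x hx)⟩) hV2
  have ht := hTEL G φ Q (μ.real K1 / s) (eps * μ.real K1 / s) hQ p3
    (fun g hg h hh x => p4 g hg h (hQV hh) x)
  intro q hq
  have h5 := steps ht (2 * s) q hq 1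
  rw [mul_one] at h5
  have hs' : (0 : ℝ) < s := by exact_mod_cast hs
  have h6 : ((2 * s : ℕ) : ℝ) * (eps * μ.real K1 / s) = 2 * eps * m := by
    push_cast
    rw [mul_div_assoc', div_eq_iff hs'.ne', ← hm]
    ring
  rw [h6] at h5
  have h7 : 2 * eps * m < c0 := by
    rw [heps]
    have : 2 * (c0 / (4 * (m + 1))) * m = c0 * (m / (2 * (m + 1))) := by
      have h11 : m + 1 ≠ 0 := by positivity
      field_simp
      try ring
    rw [this]
    have h8 : m / (2 * (m + 1)) < 1 := by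
      rw [div_lt_one (by positivity)]; linarith
    nlinarith
  have h9 : 0 < φ q := by
    rw [abs_le] at h5
    linarith [h5.1, p2]
  obtain ⟨y, hy1, hy2⟩ := p1 q h9.ne'
  obtain ⟨a, ha, b, hb, rfl⟩ := Set.mem_mul.1 (hψs y hy1)
  have h10 := hηW _ hy2
  refine Set.mem_mul.2 ⟨a, ha, b * ((a * b)⁻¹ * q), hO1U (Set.mul_mem_mul hb.1 h10.1), ?_⟩
  group

end Pool.Agent.W922.GY2.Gasm
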